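import Pool.Agent.H46.Oka.Domain

/-!
# The Koebe quarter theorem

`be_one`: if `F` is univalent on the unit disc, `F 0 = 0` and `F z * F z' ≠ 1` for all `z`, `z'`, then `‖F' 0‖ ≤ 1`. PROOF (logarithmic area). If `ball 0 ρ ⊆ F '' ball 0 r` with `r < ρ < 1` and `A = {r ≤ ‖z‖ < 1}`, then `F '' A` and `(1 / F) '' A` are disjoint
subsets of `{ρ ≤ ‖w‖ ≤ 1 / ρ}`, which has the area `4 π log (1 / ρ)` for `1 / ‖w‖ ^ 2`; both have the area `∫ ‖F' / F‖ ^ 2 ≥ 2 π log (1 / r)` (mean value of `z F' / F` on the circles): contradiction. If `‖F' 0‖ > 1` there are such `r`, `ρ`.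
`quarter`: the Koebe quarter theorem, from `be_one` for `(s - 1) / (s + 1)`, `s ^ 2 = 1 - g / w`, `w` an omitted value.
-/

set_option autoImplicit false

open Filter Topology Metric Set MeasureTheory

namespace Pool.Agent.H80.KQ

private theorem absdet (a : ℂ) : |((ContinuousLinearMap.toSpanSingleton ℂ a).restrictScalars ℝ : ℂ →L[ℝ] ℂ).det| = ‖a‖ ^ 2 := by
  have h1 : ((ContinuousLinearMap.toSpanSingleton ℂ a).restrictScalars ℝ : ℂ →L[ℝ] ℂ).det = ‖a‖ ^ 2 := by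
    simp [ContinuousLinearMap.det, LinearMap.det_restrictScalars, Algebra.norm_complex_eq, Complex.normSq_eq_norm_sq]
  rw [h1, abs_of_nonneg (by positivity)]

private noncomputable def gam (s t : ℝ) : ℂ := s * (Real.cos t + Real.sin t * Complex.I)

private theorem gam_norm (s t : ℝ) (hs : 0 ≤ s) : ‖gam s t‖ = s := by
  unfold gam
  have e2 : ‖((Real.cos t : ℝ) : ℂ) + ((Real.sin t : ℝ) : ℂ) * Complex.I‖ = 1 := by
    rw [Complex.norm_add_mul_I, Real.cos_sq_add_sin_sq, Real.sqrt_one]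
  rw [norm_mul, e2, mul_one, Complex.norm_real, Real.norm_of_nonneg hs]

private theorem gam_circ (s t : ℝ) : gam s t = circleMap 0 s t := by
  unfold gam circleMap
  rw [Complex.exp_mul_I, zero_add, Complex.ofReal_cos, Complex.ofReal_sin]

private theorem polar (F : ℂ → ENNReal) (hF : Measurable F) :
    ∫⁻ x, F x = ∫⁻ s in Ioi (0 : ℝ), ∫⁻ t in Ioo (-Real.pi) Real.pi, ENNReal.ofReal s * F (gam s t) := by
  rw [← Complex.lintegral_comp_polarCoord_symm F]
  have h2 : (volume : Measure (ℝ × ℝ)).restrict polarCoord.target =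
      ((volume : Measure ℝ).restrict (Ioi 0)).prod (volume.restrict (Ioo (-Real.pi) Real.pi)) := by
    rw [polarCoord_target, Measure.volume_eq_prod, Measure.prod_restrict]
  have h3 : ∀ p : ℝ × ℝ, ENNReal.ofReal p.1 • F (Complex.polarCoord.symm p) =
      ENNReal.ofReal p.1 * F (gam p.1 p.2) := by
    intro p
    rw [Complex.polarCoord_symm_apply, smul_eq_mul]
    rfl
  have h4 : Measurable fun p : ℝ × ℝ => gam p.1 p.2 := by
    unfold gam
    fun_prop
  have hm : Measurable fun p : ℝ × ℝ => ENNReal.ofReal p.1 * F (gam p.1 p.2) :=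
    measurable_fst.ennreal_ofReal.mul (hF.comp h4)
  simp only [h3]
  rw [h2, lintegral_prod _ hm.aemeasurable]

private theorem int_inv {a b c : ℝ} (ha : 0 < a) (hab : a ≤ b) (hc : 0 ≤ c) :
    ∫⁻ s in Ioo a b, ENNReal.ofReal (c / s) = ENNReal.ofReal (c * Real.log (b / a)) := by
  rw [← ofReal_integral_eq_lintegral_ofReal]
  · congr 1
    rw [← integral_Ioc_eq_integral_Ioo, ← intervalIntegral.integral_of_le hab]
    have e1 : ∀ s : ℝ, c / s = c * (1 / s) := fun s => by ring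
    simp only [e1]
    rw [intervalIntegral.integral_const_mul, integral_one_div_of_pos ha (ha.trans_le hab)]
  · have e2 : ContinuousOn (fun s : ℝ => c / s) (Icc a b) :=
      continuousOn_const.div continuousOn_id fun s hs => (ha.trans_le hs.1).ne'
    exact (e2.integrableOn_Icc (μ := volume)).mono_set Ioo_subset_Icc_self
  · filter_upwards [ae_restrict_mem measurableSet_Ioo] with s hs
    exact div_nonneg hc (ha.trans hs.1).le

/-- the mean value inequality -/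
private theorem circ_lo {h : ℂ → ℂ} (hd : DifferentiableOn ℂ h (ball 0 1)) (h0 : h 0 = 1) {s : ℝ} (hs : 0 < s)
    (hs1 : s < 1) :
    ENNReal.ofReal (2 * Real.pi) ≤ ∫⁻ t in Ioo (-Real.pi) Real.pi, ENNReal.ofReal (‖h (gam s t)‖ ^ 2) := by
  have hpi := Real.pi_pos
  obtain ⟨g, hg⟩ : ∃ g : ℝ → ℂ, g = fun t => h (circleMap 0 s t) := ⟨_, rfl⟩
  have hmem : ∀ t, circleMap 0 s t ∈ ball (0 : ℂ) 1 := fun t => by
    rw [← gam_circ, mem_ball_zero_iff, gam_norm s t hs.le]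
    exact hs1
  have hgc : Continuous g := by
    rw [hg]
    exact continuousOn_univ.1 (hd.continuousOn.comp (continuous_circleMap 0 s).continuousOn fun t _ => hmem t)
  have hper : Function.Periodic g (2 * Real.pi) := by
    rw [hg]
    intro t
    show h (circleMap 0 s (t + 2 * Real.pi)) = h (circleMap 0 s t)
    rw [periodic_circleMap 0 s t]
  have hcl : DiffContOnCl ℂ h (ball 0 |s|) := by
    rw [abs_of_pos hs]
    exact (hd.mono (closedBall_subset_ball hs1)).diffContOnCl_ball le_rfl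
  have hav := hcl.circleAverage
  rw [Real.circleAverage_def, h0] at hav
  have hI : ∫ t in (-Real.pi)..Real.pi, g t = 2 * Real.pi := by
    have e1 := hper.intervalIntegral_add_eq 0 (-Real.pi)
    have e2 : (0 : ℝ) + 2 * Real.pi = 2 * Real.pi := by ring
    have e3 : -Real.pi + 2 * Real.pi = Real.pi := by ring
    rw [e2, e3] at e1
    rw [← e1, hg]
    have e4 : ((2 * Real.pi : ℝ) : ℂ) * (((2 * Real.pi)⁻¹ : ℝ) • ∫ θ in (0 : ℝ)..2 * Real.pi, h (circleMap 0 s θ)) =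
        ((2 * Real.pi : ℝ) : ℂ) * 1 := by rw [hav]
    rw [Complex.real_smul, ← mul_assoc, ← Complex.ofReal_mul, mul_inv_cancel₀ (by positivity), Complex.ofReal_one,
      one_mul, mul_one] at e4
    rw [e4]
    push_cast
    ring
  have hgi : IntervalIntegrable g volume (-Real.pi) Real.pi := hgc.intervalIntegrable _ _
  have hre : ∫ t in (-Real.pi)..Real.pi, (g t).re = 2 * Real.pi := by
    have e1 := Complex.reCLM.intervalIntegral_comp_comm hgi
    have e2 : ∫ t in (-Real.pi)..Real.pi, Complex.reCLM (g t) = ∫ t in (-Real.pi)..Real.pi, (g t).re := rfl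
    rw [← e2, e1, hI]
    simp
  have hrc : Continuous fun t => 2 * (g t).re - 1 :=
    (continuous_const.mul (Complex.continuous_re.comp hgc)).sub continuous_const
  have hnc : Continuous fun t => ‖g t‖ ^ 2 := hgc.norm.pow 2
  have hc1 : IntervalIntegrable (fun t => 2 * (g t).re) volume (-Real.pi) Real.pi :=
    (continuous_const.mul (Complex.continuous_re.comp hgc)).intervalIntegrable _ _
  have h1 : ∫ t in (-Real.pi)..Real.pi, (2 * (g t).re - 1) = 2 * Real.pi := by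
    rw [intervalIntegral.integral_sub hc1 (continuous_const.intervalIntegrable _ _),
      intervalIntegral.integral_const_mul, hre, intervalIntegral.integral_const, smul_eq_mul]
    ring
  have h2 : ∫ t in (-Real.pi)..Real.pi, (2 * (g t).re - 1) ≤ ∫ t in (-Real.pi)..Real.pi, ‖g t‖ ^ 2 := by
    refine intervalIntegral.integral_mono_on (by linarith) (hrc.intervalIntegrable _ _) (hnc.intervalIntegrable _ _)
      fun t _ => ?_
    rw [← Complex.normSq_eq_norm_sq, Complex.normSq_apply]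
    nlinarith [sq_nonneg ((g t).re - 1), sq_nonneg (g t).im]
  rw [h1, intervalIntegral.integral_of_le (by linarith), integral_Ioc_eq_integral_Ioo] at h2
  have h3 : ∫⁻ t in Ioo (-Real.pi) Real.pi, ENNReal.ofReal (‖h (gam s t)‖ ^ 2) =
      ENNReal.ofReal (∫ t in Ioo (-Real.pi) Real.pi, ‖g t‖ ^ 2) := by
    rw [ofReal_integral_eq_lintegral_ofReal]
    · refine lintegral_congr fun t => ?_
      rw [gam_circ, hg]
    · exact (hnc.integrableOn_Icc (μ := volume)).mono_set Ioo_subset_Icc_self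
    · exact Eventually.of_forall fun t => by positivity
  rw [h3]
  exact ENNReal.ofReal_le_ofReal h2

/-- the lower bound for the logarithmic area -/
private theorem area_lo {h : ℂ → ℂ} (hd : DifferentiableOn ℂ h (ball 0 1)) (h0 : h 0 = 1) {r : ℝ} (hr : 0 < r)
    (hr1 : r < 1) :
    ENNReal.ofReal (2 * Real.pi * Real.log (1 / r)) ≤
      ∫⁻ z in {z : ℂ | r ≤ ‖z‖ ∧ ‖z‖ < 1}, ENNReal.ofReal (‖h z‖ ^ 2 / ‖z‖ ^ 2) := by
  have hpi := Real.pi_pos
  obtain ⟨A, hA⟩ : ∃ A : Set ℂ, A = {z : ℂ | r ≤ ‖z‖ ∧ ‖z‖ < 1} := ⟨_, rfl⟩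
  rw [← hA]
  have hAm : MeasurableSet A := by
    rw [hA]
    exact (isClosed_le continuous_const continuous_norm).measurableSet.inter
      (isOpen_lt continuous_norm continuous_const).measurableSet
  have hAb : A ⊆ ball 0 1 := fun z hz => by
    rw [hA] at hz
    rw [mem_ball_zero_iff]
    exact hz.2
  obtain ⟨φ, hφ⟩ : ∃ φ : ℂ → ENNReal, φ = fun z => ENNReal.ofReal (‖h z‖ ^ 2 / ‖z‖ ^ 2) := ⟨_, rfl⟩
  have hφm : Measurable (A.indicator φ) := by
    classical
    rw [← Set.piecewise_eq_indicator]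
    refine ContinuousOn.measurable_piecewise ?_ continuousOn_const hAm
    rw [hφ]
    refine ENNReal.continuous_ofReal.comp_continuousOn (ContinuousOn.div ?_ ?_ fun z hz => ?_)
    · exact ((hd.continuousOn.mono hAb).norm).pow 2
    · exact (continuous_norm.pow 2).continuousOn
    · rw [hA] at hz
      have := hr.trans_le hz.1
      positivity
  have h1 : ∫⁻ z in A, ENNReal.ofReal (‖h z‖ ^ 2 / ‖z‖ ^ 2) = ∫⁻ z, A.indicator φ z := by
    rw [lintegral_indicator hAm, hφ]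
  rw [h1, polar _ hφm, ← int_inv hr hr1.le (by positivity)]
  have hsub : Ioo r 1 ⊆ Ioi 0 := fun s hs => hr.trans hs.1
  refine le_trans (setLIntegral_mono' measurableSet_Ioo fun s hs => ?_) (lintegral_mono_set hsub)
  have hs0 : 0 < s := hr.trans hs.1
  have h5 : ∀ t, ENNReal.ofReal s * A.indicator φ (gam s t) =
      ENNReal.ofReal (1 / s) * ENNReal.ofReal (‖h (gam s t)‖ ^ 2) := by
    intro t
    have hm : gam s t ∈ A := by
      rw [hA, mem_ofPred_eq, gam_norm s t hs0.le]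
      exact ⟨hs.1.le, hs.2⟩
    rw [indicator_of_mem hm, hφ]
    show ENNReal.ofReal s * ENNReal.ofReal (‖h (gam s t)‖ ^ 2 / ‖gam s t‖ ^ 2) = _
    rw [gam_norm s t hs0.le, ← ENNReal.ofReal_mul hs0.le, ← ENNReal.ofReal_mul (by positivity)]
    congr 1
    field_simp
  simp only [h5]
  rw [lintegral_const_mul' _ _ ENNReal.ofReal_ne_top]
  calc ENNReal.ofReal (2 * Real.pi / s) = ENNReal.ofReal (1 / s) * ENNReal.ofReal (2 * Real.pi) := by
        rw [← ENNReal.ofReal_mul (by positivity)]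
        congr 1
        ring
    _ ≤ _ := mul_le_mul_right (circ_lo hd h0 hs0 hs.2) _

/-- the logarithmic area of a round annulus -/
private theorem area_up {ρ : ℝ} (hρ : 0 < ρ) (hρ1 : ρ < 1) :
    ∫⁻ w in {w : ℂ | ρ ≤ ‖w‖ ∧ ‖w‖ ≤ 1 / ρ}, ENNReal.ofReal (1 / ‖w‖ ^ 2) ≤
      ENNReal.ofReal (4 * Real.pi * Real.log (1 / ρ)) := by
  have hpi := Real.pi_pos
  have hρ2 : ρ ≤ 1 / ρ := by
    rw [le_div_iff₀ hρ]
    nlinarith
  obtain ⟨A, hA⟩ : ∃ A : Set ℂ, A = {w : ℂ | ρ ≤ ‖w‖ ∧ ‖w‖ ≤ 1 / ρ} := ⟨_, rfl⟩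
  rw [← hA]
  have hAm : MeasurableSet A := by
    rw [hA]
    exact (isClosed_le continuous_const continuous_norm).measurableSet.inter
      (isClosed_le continuous_norm continuous_const).measurableSet
  obtain ⟨φ, hφ⟩ : ∃ φ : ℂ → ENNReal, φ = fun w => ENNReal.ofReal (1 / ‖w‖ ^ 2) := ⟨_, rfl⟩
  have hφm : Measurable (A.indicator φ) := by
    rw [hφ]
    exact ((measurable_const.div (measurable_norm.pow_const 2)).ennreal_ofReal).indicator hAm
  have h1 : ∫⁻ w in A, ENNReal.ofReal (1 / ‖w‖ ^ 2) = ∫⁻ w, A.indicator φ w := by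
    rw [lintegral_indicator hAm, hφ]
  rw [h1, polar _ hφm]
  have h2 : ∀ s ∈ Ioi (0 : ℝ), ∫⁻ t in Ioo (-Real.pi) Real.pi, ENNReal.ofReal s * A.indicator φ (gam s t) =
      (Icc ρ (1 / ρ)).indicator (fun s => ENNReal.ofReal (2 * Real.pi / s)) s := by
    intro s hs
    have hs0 : (0 : ℝ) < s := hs
    by_cases hm : s ∈ Icc ρ (1 / ρ)
    · rw [indicator_of_mem hm]
      have h5 : ∀ t, ENNReal.ofReal s * A.indicator φ (gam s t) = ENNReal.ofReal (1 / s) := by
        intro t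
        have hm' : gam s t ∈ A := by
          rw [hA, mem_ofPred_eq, gam_norm s t hs0.le]
          exact hm
        rw [indicator_of_mem hm', hφ]
        show ENNReal.ofReal s * ENNReal.ofReal (1 / ‖gam s t‖ ^ 2) = _
        rw [gam_norm s t hs0.le, ← ENNReal.ofReal_mul hs0.le]
        congr 1
        field_simp
      simp only [h5]
      rw [setLIntegral_const, Real.volume_Ioo, ← ENNReal.ofReal_mul (by positivity)]
      congr 1
      ring
    · rw [indicator_of_notMem hm]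
      have h5 : ∀ t, ENNReal.ofReal s * A.indicator φ (gam s t) = 0 := by
        intro t
        have hm' : gam s t ∉ A := by
          rw [hA, mem_ofPred_eq, gam_norm s t hs0.le]
          exact hm
        rw [indicator_of_notMem hm', mul_zero]
      simp only [h5]
      exact lintegral_zero
  rw [setLIntegral_congr_fun measurableSet_Ioi h2, setLIntegral_indicator measurableSet_Icc]
  have h3 : Icc ρ (1 / ρ) ∩ Ioi 0 = Icc ρ (1 / ρ) := inter_eq_left.2 fun s hs => hρ.trans_le hs.1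
  rw [h3, setLIntegral_congr (Ioo_ae_eq_Icc (μ := volume) (a := ρ) (b := 1 / ρ)).symm, int_inv hρ hρ2 (by positivity)]
  refine le_of_eq ?_
  congr 1
  have h4 : 1 / ρ / ρ = (1 / ρ) * (1 / ρ) := by ring
  rw [h4, Real.log_mul (by positivity) (by positivity)]
  ring

/-- the area formula -/
private theorem area_eq {G G' : ℂ → ℂ} {A : Set ℂ} (hA : MeasurableSet A) (hG : ∀ z ∈ A, HasDerivAt G (G' z) z)
    (hi : InjOn G A) :
    ∫⁻ w in G '' A, ENNReal.ofReal (1 / ‖w‖ ^ 2) = ∫⁻ z in A, ENNReal.ofReal (‖G' z‖ ^ 2 / ‖G z‖ ^ 2) := by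
  rw [lintegral_image_eq_lintegral_abs_det_fderiv_mul volume hA
    (f' := fun y => (ContinuousLinearMap.toSpanSingleton ℂ (G' y)).restrictScalars ℝ)
    (fun y hy => ((hG y hy).hasFDerivAt.restrictScalars ℝ).hasFDerivWithinAt) hi]
  refine lintegral_congr fun z => ?_
  rw [absdet, ← ENNReal.ofReal_mul (by positivity)]
  congr 1
  ring

private theorem be_rad {F : ℂ → ℂ} (hF : DifferentiableOn ℂ F (ball 0 1)) (hi : InjOn F (ball 0 1)) (h0 : F 0 = 0)
    (hbe : ∀ z ∈ ball (0 : ℂ) 1, ∀ z' ∈ ball (0 : ℂ) 1, F z * F z' ≠ 1) (hd0 : deriv F 0 ≠ 0) {r ρ : ℝ} (hr : 0 < r)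
    (hrρ : r < ρ) (hρ1 : ρ < 1) (hcov : ball 0 ρ ⊆ F '' ball 0 r) : False := by
  have hpi := Real.pi_pos
  have hρ : 0 < ρ := hr.trans hrρ
  have hr1 : r < 1 := hrρ.trans hρ1
  have hb0 : (0 : ℂ) ∈ ball (0 : ℂ) 1 := mem_ball_self one_pos
  have hbr : ball (0 : ℂ) r ⊆ ball 0 1 := ball_subset_ball hr1.le
  obtain ⟨A, hA⟩ : ∃ A : Set ℂ, A = {z : ℂ | r ≤ ‖z‖ ∧ ‖z‖ < 1} := ⟨_, rfl⟩
  obtain ⟨S, hS⟩ : ∃ S : Set ℂ, S = {w : ℂ | ρ ≤ ‖w‖ ∧ ‖w‖ ≤ 1 / ρ} := ⟨_, rfl⟩
  have hAm : MeasurableSet A := by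
    rw [hA]
    exact (isClosed_le continuous_const continuous_norm).measurableSet.inter
      (isOpen_lt continuous_norm continuous_const).measurableSet
  have hAb : A ⊆ ball 0 1 := fun z hz => by
    rw [hA] at hz
    rw [mem_ball_zero_iff]
    exact hz.2
  -- the function `h`
  obtain ⟨k, hk⟩ : ∃ k : ℂ → ℂ, k = dslope F 0 := ⟨_, rfl⟩
  have hkd : DifferentiableOn ℂ k (ball 0 1) := by
    rw [hk]
    exact (Complex.differentiableOn_dslope (isOpen_ball.mem_nhds hb0)).2 hF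
  have hkz : ∀ z : ℂ, z ≠ 0 → F z = z * k z := by
    intro z hz
    rw [hk, dslope_of_ne F hz, slope_def_field, h0]
    field_simp
    ring
  have hk0 : k 0 = deriv F 0 := by rw [hk, dslope_same]
  have hFz : ∀ z ∈ ball (0 : ℂ) 1, z ≠ 0 → F z ≠ 0 := by
    intro z hz hz0 h1
    exact hz0 (hi hz hb0 (h1.trans h0.symm))
  have hkn : ∀ z ∈ ball (0 : ℂ) 1, k z ≠ 0 := by
    intro z hz
    by_cases hz0 : z = 0
    · rw [hz0, hk0]
      exact hd0
    · intro h1
      have h2 := hkz z hz0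
      rw [h1, mul_zero] at h2
      exact hFz z hz hz0 h2
  obtain ⟨h, hh⟩ : ∃ h : ℂ → ℂ, h = fun z => deriv F z / k z := ⟨_, rfl⟩
  have hhd : DifferentiableOn ℂ h (ball 0 1) := by
    rw [hh]
    exact (hF.deriv isOpen_ball).div hkd hkn
  have hh0 : h 0 = 1 := by
    rw [hh]
    show deriv F 0 / k 0 = 1
    rw [hk0, div_self hd0]
  have hA0 : ∀ z ∈ A, z ≠ 0 := by
    intro z hz h1
    rw [hA, h1, mem_ofPred_eq, norm_zero] at hz
    linarith [hz.1]
  have hder : ∀ z ∈ A, HasDerivAt F (deriv F z) z := fun z hz =>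
    ((hF z (hAb hz)).differentiableAt (isOpen_ball.mem_nhds (hAb hz))).hasDerivAt
  have hquot : ∀ z ∈ A, ‖h z‖ ^ 2 / ‖z‖ ^ 2 = ‖deriv F z‖ ^ 2 / ‖F z‖ ^ 2 := by
    intro z hz
    have e1 : h z = deriv F z / k z := by rw [hh]
    have e2 : ‖z‖ ≠ 0 := norm_ne_zero_iff.2 (hA0 z hz)
    have e3 : ‖k z‖ ≠ 0 := norm_ne_zero_iff.2 (hkn z (hAb hz))
    rw [e1, hkz z (hA0 z hz), norm_div, norm_mul]
    field_simp
  -- bounds
  have hup : ∀ z ∈ ball (0 : ℂ) 1, ‖F z‖ ≤ 1 / ρ := by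
    intro z hz
    by_contra hcon
    rw [not_le] at hcon
    have h1 : 0 < ‖F z‖ := lt_trans (by positivity) hcon
    have h2 : (F z)⁻¹ ∈ ball (0 : ℂ) ρ := by
      rw [mem_ball_zero_iff, norm_inv]
      rw [one_div] at hcon
      exact (inv_lt_comm₀ h1 hρ).2 hcon
    obtain ⟨z', hz', he⟩ := hcov h2
    refine hbe z hz z' (hbr hz') ?_
    rw [he, mul_inv_cancel₀ (norm_pos_iff.1 h1)]
  have hlo : ∀ z ∈ A, ρ ≤ ‖F z‖ := by
    intro z hz
    by_contra hcon
    rw [not_le] at hcon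
    obtain ⟨z', hz', he⟩ := hcov (mem_ball_zero_iff.2 hcon)
    have h1 := hi (hbr hz') (hAb hz) he
    rw [h1, mem_ball_zero_iff] at hz'
    rw [hA] at hz
    linarith [hz.1]
  have hFA : ∀ z ∈ A, F z ≠ 0 := fun z hz => hFz z (hAb hz) (hA0 z hz)
  -- the two images
  have hinvi : InjOn (fun z => (F z)⁻¹) A := by
    intro z hz z' hz' he
    exact hi (hAb hz) (hAb hz') (inv_injective he)
  have hinvd : ∀ z ∈ A, HasDerivAt (fun z => (F z)⁻¹) (-deriv F z / F z ^ 2) z := fun z hz =>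
    (hder z hz).fun_inv (hFA z hz)
  have hinvc : ContinuousOn (fun z => (F z)⁻¹) A := fun z hz => (hinvd z hz).continuousAt.continuousWithinAt
  have hEm : MeasurableSet ((fun z => (F z)⁻¹) '' A) := hAm.image_of_continuousOn_injOn hinvc hinvi
  have hdis : Disjoint (F '' A) ((fun z => (F z)⁻¹) '' A) := by
    rw [Set.disjoint_left]
    rintro _ ⟨z, hz, rfl⟩ ⟨z', hz', he⟩
    refine hbe z (hAb hz) z' (hAb hz') ?_
    have he' : (F z')⁻¹ = F z := he
    rw [← he', inv_mul_cancel₀ (hFA z' hz')]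
  have hsub : F '' A ∪ (fun z => (F z)⁻¹) '' A ⊆ S := by
    rintro w (⟨z, hz, rfl⟩ | ⟨z, hz, rfl⟩)
    · rw [hS]
      exact ⟨hlo z hz, hup z (hAb hz)⟩
    · rw [hS, mem_ofPred_eq, norm_inv]
      have h1 := hlo z hz
      have h2 := hup z (hAb hz)
      have h3 : 0 < ‖F z‖ := hρ.trans_le h1
      constructor
      · rw [one_div] at h2
        exact (le_inv_comm₀ h3 hρ).1 h2
      · rw [one_div]
        exact inv_anti₀ hρ h1
  have e1 : ∫⁻ w in F '' A, ENNReal.ofReal (1 / ‖w‖ ^ 2) = ∫⁻ z in A, ENNReal.ofReal (‖h z‖ ^ 2 / ‖z‖ ^ 2) := by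
    rw [area_eq hAm hder (hi.mono hAb)]
    refine setLIntegral_congr_fun hAm fun z hz => ?_
    rw [hquot z hz]
  have e2 : ∫⁻ w in (fun z => (F z)⁻¹) '' A, ENNReal.ofReal (1 / ‖w‖ ^ 2) =
      ∫⁻ z in A, ENNReal.ofReal (‖h z‖ ^ 2 / ‖z‖ ^ 2) := by
    rw [area_eq hAm hinvd hinvi]
    refine setLIntegral_congr_fun hAm fun z hz => ?_
    have h1 : ‖F z‖ ≠ 0 := norm_ne_zero_iff.2 (hFA z hz)
    have h2 : ‖-deriv F z / F z ^ 2‖ ^ 2 / ‖(F z)⁻¹‖ ^ 2 = ‖h z‖ ^ 2 / ‖z‖ ^ 2 := by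
      rw [hquot z hz, norm_div, norm_neg, norm_pow, norm_inv]
      field_simp
    show ENNReal.ofReal (‖-deriv F z / F z ^ 2‖ ^ 2 / ‖(F z)⁻¹‖ ^ 2) = _
    rw [h2]
  have h1 : ∫⁻ w in F '' A ∪ (fun z => (F z)⁻¹) '' A, ENNReal.ofReal (1 / ‖w‖ ^ 2) ≤
      ENNReal.ofReal (4 * Real.pi * Real.log (1 / ρ)) := by
    refine (lintegral_mono_set hsub).trans ?_
    rw [hS]
    exact area_up hρ hρ1
  rw [lintegral_union hEm hdis, e1, e2] at h1
  have h2 := area_lo hhd hh0 hr hr1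
  rw [← hA] at h2
  have h3 := (add_le_add h2 h2).trans h1
  have hl : 0 < Real.log (1 / r) := Real.log_pos (by rw [lt_div_iff₀ hr]; linarith)
  have hl2 : 0 < Real.log (1 / ρ) := Real.log_pos (by rw [lt_div_iff₀ hρ]; linarith)
  rw [← ENNReal.ofReal_add (by positivity) (by positivity), ENNReal.ofReal_le_ofReal_iff (by positivity)] at h3
  have h4 : Real.log (1 / r) ≤ Real.log (1 / ρ) := by nlinarith
  have h5 : Real.log (1 / ρ) < Real.log (1 / r) :=
    Real.log_lt_log (by positivity) (one_div_lt_one_div_of_lt hr hrρ)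
  linarith

/-- univalent Bieberbach-Eilenberg functions -/
theorem be_one {F : ℂ → ℂ} (hF : DifferentiableOn ℂ F (ball 0 1)) (hi : InjOn F (ball 0 1)) (h0 : F 0 = 0)
    (hbe : ∀ z ∈ ball (0 : ℂ) 1, ∀ z' ∈ ball (0 : ℂ) 1, F z * F z' ≠ 1) : ‖deriv F 0‖ ≤ 1 := by
  by_contra hcon
  rw [not_le] at hcon
  have hb0 : (0 : ℂ) ∈ ball (0 : ℂ) 1 := mem_ball_self one_pos
  have hd0 : deriv F 0 ≠ 0 := norm_pos_iff.1 (one_pos.trans hcon)
  have han : AnalyticAt ℂ F 0 := hF.analyticAt (isOpen_ball.mem_nhds hb0)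
  have hst : HasStrictDerivAt F (deriv F 0) 0 := han.hasStrictDerivAt
  obtain ⟨G, hG⟩ : ∃ G, G = hst.localInverse F (deriv F 0) 0 hd0 := ⟨_, rfl⟩
  have hGd : HasDerivAt G (deriv F 0)⁻¹ 0 := by
    have h1 := (hst.to_localInverse hd0).hasDerivAt
    rw [h0, ← hG] at h1
    exact h1
  have hGr : ∀ᶠ y in 𝓝 (0 : ℂ), F (G y) = y := by
    have h1 := hst.eventually_right_inverse hd0
    rw [h0, ← hG] at h1
    exact h1
  have hG0 : G 0 = 0 := by
    have h1 := (hst.eventually_left_inverse hd0).self_of_nhds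
    rw [h0, ← hG] at h1
    exact h1
  obtain ⟨l, hl1, hl2⟩ := exists_between hcon
  have hl0 : 0 < l := one_pos.trans hl1
  have hlt : ‖(deriv F 0)⁻¹‖ < l⁻¹ := by
    rw [norm_inv]
    exact (inv_lt_inv₀ (hl0.trans hl2) hl0).2 hl2
  have hbd : ∀ᶠ y in 𝓝 (0 : ℂ), ‖G y‖ ≤ l⁻¹ * ‖y‖ := by
    have h1 := hasDerivAt_iff_isLittleO.1 hGd
    have h2 := h1.def (show 0 < l⁻¹ - ‖(deriv F 0)⁻¹‖ by linarith)
    filter_upwards [h2] with y hy
    rw [hG0, sub_zero, sub_zero, smul_eq_mul] at hy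
    have h3 : G y = (G y - y * (deriv F 0)⁻¹) + y * (deriv F 0)⁻¹ := by ring
    calc ‖G y‖ = ‖(G y - y * (deriv F 0)⁻¹) + y * (deriv F 0)⁻¹‖ := by rw [← h3]
      _ ≤ ‖G y - y * (deriv F 0)⁻¹‖ + ‖y * (deriv F 0)⁻¹‖ := norm_add_le _ _
      _ ≤ (l⁻¹ - ‖(deriv F 0)⁻¹‖) * ‖y‖ + ‖y‖ * ‖(deriv F 0)⁻¹‖ := by
          rw [norm_mul]
          linarith
      _ = l⁻¹ * ‖y‖ := by ring
  obtain ⟨e, he, heb⟩ := Metric.eventually_nhds_iff_ball.1 (hGr.and hbd)
  obtain ⟨ρ, hρ⟩ : ∃ ρ, ρ = min e (1 / 2) := ⟨_, rfl⟩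
  have hρ0 : 0 < ρ := by rw [hρ]; exact lt_min he (by norm_num)
  have hρe : ρ ≤ e := by rw [hρ]; exact min_le_left _ _
  have hρ1 : ρ < 1 := lt_of_le_of_lt (by rw [hρ]; exact min_le_right _ _) (by norm_num : (1 / 2 : ℝ) < 1)
  have hlr : ρ / l < ρ := div_lt_self hρ0 hl1
  refine be_rad hF hi h0 hbe hd0 (r := ρ / l) (by positivity) hlr hρ1 fun w hw => ?_
  obtain ⟨h1, h2⟩ := heb w (ball_subset_ball hρe hw)
  refine ⟨G w, ?_, h1⟩
  rw [mem_ball_zero_iff] at hw ⊢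
  calc ‖G w‖ ≤ l⁻¹ * ‖w‖ := h2
    _ < l⁻¹ * ρ := mul_lt_mul_of_pos_left hw (by positivity)
    _ = ρ / l := by ring

/-- the Koebe quarter theorem for an omitted value -/
private theorem quarter0 {g : ℂ → ℂ} (hg : DifferentiableOn ℂ g (ball 0 1)) (hi : InjOn g (ball 0 1)) (h0 : g 0 = 0)
    {w : ℂ} (hw : ∀ z ∈ ball (0 : ℂ) 1, g z ≠ w) : ‖deriv g 0‖ ≤ 4 * ‖w‖ := by
  have hb0 : (0 : ℂ) ∈ ball (0 : ℂ) 1 := mem_ball_self one_pos
  have hw0 : w ≠ 0 := fun h1 => hw 0 hb0 (h0.trans h1.symm)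
  obtain ⟨u, hu⟩ : ∃ u : ℂ → ℂ, u = fun z => 1 - g z / w := ⟨_, rfl⟩
  have hud : DifferentiableOn ℂ u (ball 0 1) := by
    rw [hu]
    exact (hg.div_const w).const_sub 1
  have hune : ∀ z ∈ ball (0 : ℂ) 1, u z ≠ 0 := by
    intro z hz h1
    rw [hu] at h1
    have h2 : g z / w = 1 := (sub_eq_zero.1 h1).symm
    exact hw z hz ((div_eq_one_iff_eq hw0).1 h2)
  have hu0 : u 0 = 1 := by rw [hu]; simp [h0]
  have huinj : ∀ x ∈ ball (0 : ℂ) 1, ∀ y ∈ ball (0 : ℂ) 1, u x = u y → x = y := by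
    intro x hx y hy hxy
    rw [hu] at hxy
    exact hi hx hy ((div_left_inj' hw0).1 (sub_right_inj.1 hxy))
  obtain ⟨L, hLd, hL⟩ := Pool.Agent.H46.Oka.exists_log_ball one_pos hud hune
  obtain ⟨s, hs⟩ : ∃ s : ℂ → ℂ, s = fun z => Complex.exp ((L z - L 0) / 2) := ⟨_, rfl⟩
  have hsd : DifferentiableOn ℂ s (ball 0 1) := by
    rw [hs]
    exact ((hLd.sub_const _).div_const 2).cexp
  have hssq : ∀ z ∈ ball (0 : ℂ) 1, s z ^ 2 = u z := by
    intro z hz
    have e1 : s z ^ 2 = Complex.exp (L z) / Complex.exp (L 0) := by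
      rw [hs, ← Complex.exp_sub, ← Complex.exp_nat_mul]
      congr 1
      push_cast
      ring
    rw [e1, hL z hz, hL 0 hb0, hu0, div_one]
  have hs0 : s 0 = 1 := by rw [hs]; simp
  have hsne : ∀ z, s z ≠ 0 := fun z => by rw [hs]; exact Complex.exp_ne_zero _
  have hsinj : ∀ x ∈ ball (0 : ℂ) 1, ∀ y ∈ ball (0 : ℂ) 1, s x ^ 2 = s y ^ 2 → x = y := by
    intro x hx y hy hxy
    rw [hssq x hx, hssq y hy] at hxy
    exact huinj x hx y hy hxy
  have hsum : ∀ x ∈ ball (0 : ℂ) 1, ∀ y ∈ ball (0 : ℂ) 1, s x + s y ≠ 0 := by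
    intro x hx y hy h1
    have h2 : s x = -s y := eq_neg_of_add_eq_zero_left h1
    have h3 := hsinj x hx y hy (by rw [h2]; ring)
    rw [h3] at h1
    have h4 : s y = 0 := by
      have h5 : 2 * s y = 0 := by linear_combination h1
      exact (mul_eq_zero.1 h5).resolve_left two_ne_zero
    exact hsne y h4
  have hs1 : ∀ z ∈ ball (0 : ℂ) 1, s z + 1 ≠ 0 := by
    intro z hz
    rw [← hs0]
    exact hsum z hz 0 hb0
  obtain ⟨F, hF⟩ : ∃ F : ℂ → ℂ, F = fun z => (s z - 1) / (s z + 1) := ⟨_, rfl⟩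
  have hFd : DifferentiableOn ℂ F (ball 0 1) := by
    rw [hF]
    exact (hsd.sub_const 1).div (hsd.add_const 1) hs1
  have hF0 : F 0 = 0 := by rw [hF]; simp [hs0]
  have hFi : InjOn F (ball 0 1) := by
    intro x hx y hy he
    rw [hF] at he
    have h1 : (s x - 1) / (s x + 1) = (s y - 1) / (s y + 1) := he
    rw [div_eq_div_iff (hs1 x hx) (hs1 y hy)] at h1
    refine hsinj x hx y hy ?_
    have h2 : s x = s y := by linear_combination h1 / 2
    rw [h2]
  have hbe : ∀ z ∈ ball (0 : ℂ) 1, ∀ z' ∈ ball (0 : ℂ) 1, F z * F z' ≠ 1 := by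
    intro z hz z' hz' he
    rw [hF] at he
    have h1 : (s z - 1) / (s z + 1) * ((s z' - 1) / (s z' + 1)) = 1 := he
    rw [div_mul_div_comm, div_eq_one_iff_eq (mul_ne_zero (hs1 z hz) (hs1 z' hz'))] at h1
    exact hsum z hz z' hz' (by linear_combination -h1 / 2)
  have hone := be_one hFd hFi hF0 hbe
  -- the derivatives
  have hgd : HasDerivAt g (deriv g 0) 0 :=
    ((hg 0 hb0).differentiableAt (isOpen_ball.mem_nhds hb0)).hasDerivAt
  have hsd0 : HasDerivAt s (deriv s 0) 0 :=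
    ((hsd 0 hb0).differentiableAt (isOpen_ball.mem_nhds hb0)).hasDerivAt
  have hud0 : HasDerivAt u (-(deriv g 0 / w)) 0 := by
    rw [hu]
    exact (hgd.div_const w).const_sub 1
  have hs2 : HasDerivAt (fun z => s z ^ 2) (2 * deriv s 0) 0 := by
    have h1 := hsd0.pow 2
    have h2 : ((2 : ℕ) : ℂ) * s 0 ^ (2 - 1) * deriv s 0 = 2 * deriv s 0 := by
      rw [hs0]
      simp
    rw [h2] at h1
    exact h1
  have hev : (fun z => s z ^ 2) =ᶠ[𝓝 0] u := by
    filter_upwards [isOpen_ball.mem_nhds hb0] with z hz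
    exact hssq z hz
  have h1 : 2 * deriv s 0 = -(deriv g 0 / w) := (hev.hasDerivAt_iff.1 hs2).unique hud0
  have hFd0 : HasDerivAt F (deriv s 0 / 2) 0 := by
    have h2 := (hsd0.sub_const 1).div (hsd0.add_const 1) (hs1 0 hb0)
    rw [hF]
    rw [hs0] at h2
    have h3 : (deriv s 0 * (1 + 1) - (1 - 1) * deriv s 0) / (1 + 1) ^ 2 = deriv s 0 / 2 := by ring
    rw [h3] at h2
    exact h2
  rw [hFd0.deriv] at hone
  have h4 : deriv g 0 = -(4 * w) * (deriv s 0 / 2) := by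
    have h5 : deriv g 0 = -(2 * deriv s 0) * w := by
      rw [h1]
      field_simp
    rw [h5]
    ring
  rw [h4, norm_mul, norm_neg, norm_mul]
  have h6 : ‖(4 : ℂ)‖ = 4 := by norm_num
  rw [h6]
  calc 4 * ‖w‖ * ‖deriv s 0 / 2‖ ≤ 4 * ‖w‖ * 1 := mul_le_mul_of_nonneg_left hone (by positivity)
    _ = 4 * ‖w‖ := mul_one _

/-- THE KOEBE QUARTER THEOREM -/
theorem quarter {g : ℂ → ℂ} {c : ℂ} {R : ℝ} (hR : 0 < R) (hg : DifferentiableOn ℂ g (ball c R))
    (hi : InjOn g (ball c R)) : ball (g c) (R * ‖deriv g c‖ / 4) ⊆ g '' ball c R := by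
  intro w hw
  by_contra hcon
  rw [mem_ball, dist_eq_norm] at hw
  have hmap : ∀ z ∈ ball (0 : ℂ) 1, c + R * z ∈ ball c R := by
    intro z hz
    rw [mem_ball_zero_iff] at hz
    rw [mem_ball, dist_eq_norm, add_sub_cancel_left, norm_mul, Complex.norm_real, Real.norm_of_nonneg hR.le]
    nlinarith
  have hRC : (R : ℂ) ≠ 0 := by exact_mod_cast hR.ne'
  obtain ⟨G, hG⟩ : ∃ G : ℂ → ℂ, G = fun z => g (c + R * z) - g c := ⟨_, rfl⟩
  have hGd : DifferentiableOn ℂ G (ball 0 1) := by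
    rw [hG]
    refine DifferentiableOn.sub_const ?_ _
    exact hg.comp (((differentiable_const c).add
      ((differentiable_const (R : ℂ)).mul differentiable_id)).differentiableOn) hmap
  have hGi : InjOn G (ball 0 1) := by
    intro x hx y hy hxy
    rw [hG] at hxy
    have h1 : g (c + R * x) = g (c + R * y) := sub_left_inj.1 hxy
    exact mul_left_cancel₀ hRC (add_left_cancel (hi (hmap x hx) (hmap y hy) h1))
  have hG0 : G 0 = 0 := by rw [hG]; simp
  have hG1 : deriv G 0 = deriv g c * R := by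
    have hgc : HasDerivAt g (deriv g c) (c + R * 0) := by
      rw [mul_zero, add_zero]
      exact ((hg c (mem_ball_self hR)).differentiableAt
        (isOpen_ball.mem_nhds (mem_ball_self hR))).hasDerivAt
    have hin : HasDerivAt (fun z : ℂ => c + R * z) (R : ℂ) 0 := by
      have := ((hasDerivAt_id (0 : ℂ)).const_mul (R : ℂ)).const_add c
      simpa using this
    have h1 : HasDerivAt (fun z : ℂ => g (c + R * z)) (deriv g c * R) 0 := hgc.comp (0 : ℂ) hin
    rw [hG]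
    exact (h1.sub_const (g c)).deriv
  have h1 := quarter0 hGd hGi hG0 (w := w - g c) (fun z hz he => hcon ⟨c + R * z, hmap z hz, by
    rw [hG] at he
    exact sub_left_inj.1 he⟩)
  rw [hG1, norm_mul, Complex.norm_real, Real.norm_of_nonneg hR.le] at h1
  nlinarith

end Pool.Agent.H80.KQ
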